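import Pool.Agent.Helper99.WP.GoalsW

/-!
# WP, packet DET: determinants of functional matrices
-/

open Finset

namespace Pool.Agent.Helper90.WP

open Pool.Agent.Helper99.WP Pool.Agent.Helper99.ERW

section
variable {V : Type} [Fintype V] [DecidableEq V] (c : V → Option V)

/-- One step of the partial map. -/
def stp (a b : V) : Prop := c a = some b

theorem trans_of_refl {y : V} (hy : Relation.TransGen (stp c) y y) {w : V}
    (h : Relation.ReflTransGen (stp c) y w) : Relation.TransGen (stp c) w y := by
  induction h with
  | refl => exact hy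
  | @tail a b _ hab ih =>
    have h1 : ∃ u, stp c a u ∧ Relation.ReflTransGen (stp c) u y := by
      rcases Relation.TransGen.head'_iff.1 ih with ⟨u, hu, hu'⟩
      exact ⟨u, hu, hu'⟩
    obtain ⟨u, hu, hu'⟩ := h1
    have e : u = b := by
      unfold stp at hu hab
      rw [hab] at hu
      exact (Option.some.inj hu).symm
    rw [e] at hu'
    exact Relation.TransGen.trans_right hu' hy

open Classical in
theorem not_loop (hc : Acyc c) (y : V) : ¬ Relation.TransGen (stp c) y y := by
  intro hy
  apply hc (univ.filter fun w => Relation.ReflTransGen (stp c) y w)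
  refine ⟨⟨y, ?_⟩, ?_, ?_⟩
  · simp only [mem_filter, mem_univ, true_and]
    exact Relation.ReflTransGen.refl
  · intro w hw
    simp only [mem_filter, mem_univ, true_and] at hw
    obtain ⟨u, hu, -⟩ := Relation.TransGen.head'_iff.1 (trans_of_refl c hy hw)
    refine ⟨u, ?_, hu⟩
    simp only [mem_filter, mem_univ, true_and]
    exact hw.tail hu
  · intro z hz
    simp only [mem_filter, mem_univ, true_and] at hz
    obtain ⟨u, hu, hu'⟩ := Relation.TransGen.tail'_iff.1 (Relation.TransGen.trans_left hy hz)
    refine ⟨u, ?_, hu'⟩
    simp only [mem_filter, mem_univ, true_and]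
    exact hu

open Classical in
/-- The number of sites that can be reached. -/
noncomputable def rk (y : V) : ℕ := (univ.filter fun w => Relation.ReflTransGen (stp c) y w).card

open Classical in
theorem rk_lt (hc : Acyc c) {y z : V} (h : c y = some z) : rk c z < rk c y := by
  unfold rk
  apply Finset.card_lt_card
  rw [Finset.ssubset_iff_of_subset]
  · refine ⟨y, ?_, ?_⟩
    · simp only [mem_filter, mem_univ, true_and]
      exact Relation.ReflTransGen.refl
    · simp only [mem_filter, mem_univ, true_and]
      intro h1
      exact not_loop c hc y (Relation.TransGen.head' h h1)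
  · intro w hw
    simp only [mem_filter, mem_univ, true_and] at hw ⊢
    exact Relation.ReflTransGen.head h hw

theorem det_one (hc : Acyc c) : (Matrix.of fun y z : V => (if y = z then (1 : ℝ) else 0) -
    if c y = some z then 1 else 0).det = 1 := by
  set M : Matrix V V ℝ := Matrix.of fun y z : V => (if y = z then (1 : ℝ) else 0) -
    if c y = some z then 1 else 0 with hM
  have hMa : ∀ y z, M y z = (if y = z then (1 : ℝ) else 0) - if c y = some z then 1 else 0 :=
    fun _ _ => rfl
  have hbt : M.BlockTriangular (fun y => OrderDual.toDual (rk c y)) := by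
    intro y z hyz
    have h1 : rk c y < rk c z := OrderDual.toDual_lt_toDual.1 hyz
    rw [hMa, if_neg, if_neg]
    · norm_num
    · intro h
      exact absurd (rk_lt c hc h) (by omega)
    · intro h
      rw [h] at h1
      exact lt_irrefl _ h1
  rw [hbt.det]
  apply Finset.prod_eq_one
  intro a _
  have : M.toSquareBlock (fun y => OrderDual.toDual (rk c y)) a = 1 := by
    ext ⟨y, hy⟩ ⟨z, hz⟩
    rw [Matrix.toSquareBlock_def]
    change M y z = _
    have h1 : rk c y = rk c z := by
      have : OrderDual.toDual (rk c y) = OrderDual.toDual (rk c z) := by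
        rw [hy, hz]
      exact OrderDual.toDual.injective this
    have h2 : ¬ c y = some z := by
      intro h
      exact absurd (rk_lt c hc h) (by omega)
    rw [hMa, if_neg h2, sub_zero, Matrix.one_apply]
    by_cases h : y = z
    · rw [if_pos h, if_pos]
      exact Subtype.ext h
    · rw [if_neg h, if_neg]
      intro h3
      exact h (congrArg Subtype.val h3)
  rw [this, Matrix.det_one]

theorem det_zero (hc : ¬ Acyc c) : (Matrix.of fun y z : V => (if y = z then (1 : ℝ) else 0) -
    if c y = some z then 1 else 0).det = 0 := by
  unfold Acyc at hc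
  push Not at hc
  obtain ⟨C, ⟨x₀, hx₀⟩, h1, h2⟩ := hc
  rw [← Matrix.exists_vecMul_eq_zero_iff]
  refine ⟨fun y => if y ∈ C then 1 else 0, ?_, ?_⟩
  · intro h
    have := congrFun h x₀
    simp [hx₀] at this
  · have hf : ∀ y : C, ∃ z : C, c y = some (z : V) := by
      intro y
      obtain ⟨z, hz, hz'⟩ := h1 y y.2
      exact ⟨⟨z, hz⟩, hz'⟩
    choose f hf using hf
    have hs : Function.Surjective f := by
      intro z
      obtain ⟨y, hy, hy'⟩ := h2 z z.2
      refine ⟨⟨y, hy⟩, ?_⟩
      have h3 := hf ⟨y, hy⟩
      rw [hy'] at h3
      exact Subtype.ext (Option.some.inj h3).symm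
    have hi : Function.Injective f := Finite.injective_iff_surjective.2 hs
    funext z
    change ∑ y, (if y ∈ C then (1 : ℝ) else 0) * ((if y = z then (1 : ℝ) else 0) -
      if c y = some z then 1 else 0) = 0
    have e1 : ∑ y, (if y ∈ C then (1 : ℝ) else 0) * ((if y = z then (1 : ℝ) else 0) -
        if c y = some z then 1 else 0) =
        ∑ y ∈ C, ((if y = z then (1 : ℝ) else 0) - if c y = some z then 1 else 0) := by
      rw [← Finset.sum_filter_add_sum_filter_not univ (fun y => y ∈ C)]
      rw [Finset.sum_congr (s₂ := C) (g := fun y => ((if y = z then (1 : ℝ) else 0) -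
        if c y = some z then 1 else 0)) (by ext y; simp)
        (fun y hy => by rw [if_pos hy, one_mul])]
      rw [Finset.sum_eq_zero (s := univ.filter fun y => ¬ y ∈ C), add_zero]
      intro y hy
      rw [mem_filter] at hy
      rw [if_neg hy.2, zero_mul]
    rw [e1, Finset.sum_sub_distrib]
    by_cases hz : z ∈ C
    · rw [Finset.sum_ite_eq' C z (fun _ => (1 : ℝ)), if_pos hz]
      obtain ⟨y, hy⟩ := hs ⟨z, hz⟩
      rw [Finset.sum_eq_single (y : V)]
      · rw [if_pos, sub_self]
        rw [hf y, hy]
      · intro b hb hby
        rw [if_neg]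
        intro h3
        apply hby
        have h4 := hf ⟨b, hb⟩
        rw [h3] at h4
        have h5 : f ⟨b, hb⟩ = ⟨z, hz⟩ := Subtype.ext (Option.some.inj h4).symm
        have h6 : (⟨b, hb⟩ : C) = y := hi (h5.trans hy.symm)
        exact congrArg Subtype.val h6
      · intro h3
        exact absurd y.2 h3
    · rw [Finset.sum_eq_zero, Finset.sum_eq_zero, sub_zero]
      · intro y hy
        rw [if_neg]
        intro h3
        obtain ⟨z', hz', hz''⟩ := h1 y hy
        rw [h3] at hz''
        rw [Option.some.inj hz''] at hz
        exact hz hz'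
      · intro y hy
        rw [if_neg]
        intro h3
        rw [h3] at hy
        exact hz hy

end

theorem DET : DET_stmt := by
  intro V _ _ c
  exact ⟨det_one c, det_zero c⟩

end Pool.Agent.Helper90.WP
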