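import Pool.Agent.Helper99.WP.GoalsE

/-!
# WP, packet UPR
-/

open Finset

namespace Pool.Agent.Helper90.WP

open Pool.Agent.Helper99.WP
open Pool.Agent.Helper99.ERW

theorem UPR (hTRM : TRM_stmt) (hKEY : KEY_stmt) (hPR1 : PR1_stmt) (hLN1 : LN1_stmt)
    (hD3 : D3_stmt) : UPR_stmt := by
  intro d hd κ hκ
  obtain ⟨C, hC, hD⟩ := hD3 d hd κ hκ
  refine ⟨C, hC, fun ω hω R N => ?_⟩
  have hLN : ∀ n : (Q R (0 : Site d) : Finset (Site d)) → ℕ, (∀ y, n y ≤ N) → _ :=
    fun n hn => hLN1 d κ ω (Q R (0 : Site d)) N n hκ hω hn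
  have hW : IsW (arrW ω (Q R (0 : Site d))) := (hLN 0 (fun _ => Nat.zero_le _)).2.1
  obtain ⟨hp0, hp1, -⟩ := hPR1 (Q R (0 : Site d) : Finset (Site d)) (arrW ω (Q R (0 : Site d))) N hW
  have hDD : ∀ n : (Q R (0 : Site d) : Finset (Site d)) → ℕ, (∀ y, n y ≤ N) →
      DD (rowW (arrW ω (Q R (0 : Site d))) N n) ≠ 0 := fun n hn => (hLN n hn).2.2.1
  have hT : ∀ (a : (Q R (0 : Site d) : Finset (Site d)) → Fin N →
      Option (Q R (0 : Site d) : Finset (Site d))), ∀ y, nst (ext a) y ≤ N :=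
    fun a => ((hTRM _ N).2.2.2 a).2.2
  have h1 : ∑ x : (Q R (0 : Site d) : Finset (Site d)), ∑ i ∈ Finset.range (N + 1),
      vis (arrW ω (Q R 0)) N x i =
      ∑ a : (Q R (0 : Site d) : Finset (Site d)) → Fin N →
      Option (Q R (0 : Site d) : Finset (Site d)), prb (arrW ω (Q R 0)) N a *
        ∑ x : (Q R (0 : Site d) : Finset (Site d)),
          Gmat (rowW (arrW ω (Q R 0)) N (nst (ext a))) x x := by
    have h2 : ∀ x : (Q R (0 : Site d) : Finset (Site d)), ∑ i ∈ Finset.range (N + 1),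
        vis (arrW ω (Q R 0)) N x i =
        ∑ a : (Q R (0 : Site d) : Finset (Site d)) → Fin N →
        Option (Q R (0 : Site d) : Finset (Site d)), prb (arrW ω (Q R 0)) N a *
            Gmat (rowW (arrW ω (Q R 0)) N (nst (ext a))) x x := by
      intro x
      rw [Finset.sum_congr rfl (fun i _ => hKEY _ (arrW ω (Q R (0 : Site d))) N x i hW hDD),
        Finset.sum_comm]
      refine Finset.sum_congr rfl (fun a _ => ?_)
      rw [← Finset.mul_sum, Finset.sum_ite_eq, if_pos]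
      rw [Finset.mem_range]
      exact Nat.lt_succ_of_le (hT a x)
    rw [Finset.sum_congr rfl (fun x _ => h2 x), Finset.sum_comm]
    refine Finset.sum_congr rfl (fun a _ => ?_)
    rw [Finset.mul_sum]
  rw [h1]
  calc _ ≤ ∑ a : (Q R (0 : Site d) : Finset (Site d)) → Fin N →
      Option (Q R (0 : Site d) : Finset (Site d)), prb (arrW ω (Q R 0)) N a *
        (C * (Q R (0 : Site d)).card) := by
        refine Finset.sum_le_sum (fun a _ => mul_le_mul_of_nonneg_left ?_ (hp0 a))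
        obtain ⟨hE, -, -, hG⟩ := hLN (nst (ext a)) (hT a)
        refine le_trans ?_ (hD _ hE R)
        rw [← Finset.sum_coe_sort (Q R (0 : Site d))]
        exact Finset.sum_le_sum (fun x _ => (hG x).2.1)
    _ = C * (Q R (0 : Site d)).card := by
        rw [← Finset.sum_mul, hp1, one_mul]

end Pool.Agent.Helper90.WP
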